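import Mathlib

/-!
# The energy barrier of a tensor product code can be smaller than `min (d_a * E_b) (E_a * d_b)`

A classical code is given by a parity-check matrix `δ` over `𝔽₂` (rows = checks, columns = bits).
The energy of a vector is the number of violated checks, a path flips one bit at a time, and the
energy barrier of the code is the least possible value of the maximal energy along a path from `0`
to a nonzero codeword.

We give two parity-check matrices of the four-bit repetition code (three, respectively four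
checks), both with minimum distance `4` and energy barrier `2`, whose tensor product code has
energy barrier at most `6 < 8 = min (4 * 2) (2 * 4)`.
-/

open scoped Kronecker

namespace Pool.Agent.Results.MP_998457_co.TensorBarrier

/-- The energy of `x`: the number of checks (rows of `δ`) violated by `x`. -/
def energy {m n : Type} [Fintype m] [Fintype n] (δ : Matrix m n (ZMod 2)) (x : n → ZMod 2) : ℕ :=
  hammingNorm (δ.mulVec x)

/-- `IsPath F p x`: the sequence `p 0, p 1, …, p F` goes from `0` to `x` and consecutive terms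
differ in exactly one coordinate. -/
def IsPath {n : Type} [Fintype n] (F : ℕ) (p : ℕ → n → ZMod 2) (x : n → ZMod 2) : Prop :=
  p 0 = 0 ∧ p F = x ∧ ∀ i < F, hammingDist (p i) (p (i + 1)) = 1

/-- The maximal energy of the terms `p 0, p 1, …, p F`. -/
def maxEnergy {m n : Type} [Fintype m] [Fintype n] (δ : Matrix m n (ZMod 2)) (F : ℕ)
    (p : ℕ → n → ZMod 2) : ℕ :=
  (Finset.range (F + 1)).sup fun i => energy δ (p i)

/-- The energy barrier `Δ(x)` of a vector `x`: the minimum over all paths from `0` to `x` of the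
maximal energy along the path. -/
noncomputable def barrierOf {m n : Type} [Fintype m] [Fintype n] (δ : Matrix m n (ZMod 2))
    (x : n → ZMod 2) : ℕ :=
  sInf {e | ∃ (F : ℕ) (p : ℕ → n → ZMod 2), IsPath F p x ∧ maxEnergy δ F p = e}

/-- The energy barrier `Δ(δ)` of the code: the minimum of `Δ(x)` over the nonzero codewords. -/
noncomputable def barrier {m n : Type} [Fintype m] [Fintype n] (δ : Matrix m n (ZMod 2)) : ℕ :=
  sInf {e | ∃ x : n → ZMod 2, δ.mulVec x = 0 ∧ x ≠ 0 ∧ barrierOf δ x = e}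

/-- The minimum distance `d`: the least Hamming weight of a nonzero codeword. -/
noncomputable def minDist {m n : Type} [Fintype m] [Fintype n] (δ : Matrix m n (ZMod 2)) : ℕ :=
  sInf {w | ∃ x : n → ZMod 2, δ.mulVec x = 0 ∧ x ≠ 0 ∧ hammingNorm x = w}

/-- The parity-check matrix of the tensor product code: `δ_a ⊗ I` stacked on top of
`I ⊗ δ_b`. -/
def tensorCheck {ma na mb nb : ℕ} (δa : Matrix (Fin ma) (Fin na) (ZMod 2))
    (δb : Matrix (Fin mb) (Fin nb) (ZMod 2)) :
    Matrix ((Fin ma × Fin nb) ⊕ (Fin na × Fin mb)) (Fin na × Fin nb) (ZMod 2) :=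
  Matrix.fromRows (δa ⊗ₖ (1 : Matrix (Fin nb) (Fin nb) (ZMod 2)))
    ((1 : Matrix (Fin na) (Fin na) (ZMod 2)) ⊗ₖ δb)

/-- First parity-check matrix. -/
def A : Matrix (Fin 3) (Fin 4) (ZMod 2) := !![0, 1, 1, 0; 0, 0, 1, 1; 1, 1, 1, 1]

/-- Second parity-check matrix. -/
def B : Matrix (Fin 4) (Fin 4) (ZMod 2) := !![1, 1, 1, 1; 0, 1, 0, 1; 1, 0, 1, 0; 0, 0, 1, 1]

lemma ker_A : ∀ x : Fin 4 → ZMod 2, A.mulVec x = 0 → x ≠ 0 → x = fun _ => 1 := by decide
lemma ker_B : ∀ x : Fin 4 → ZMod 2, B.mulVec x = 0 → x ≠ 0 → x = fun _ => 1 := by decide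
lemma one_A : A.mulVec (fun _ => 1) = 0 := by decide
lemma one_B : B.mulVec (fun _ => 1) = 0 := by decide
lemma one_ne : (fun _ : Fin 4 => (1 : ZMod 2)) ≠ 0 := by decide

/-- A path from an order of flips. -/
def flipPath {n : Type} (pos : n → ℕ) (i : ℕ) : n → ZMod 2 := fun j => if pos j < i then 1 else 0

lemma minDist_eq {m : ℕ} (δ : Matrix (Fin m) (Fin 4) (ZMod 2))
    (h : ∀ x : Fin 4 → ZMod 2, δ.mulVec x = 0 → x ≠ 0 → x = fun _ => 1)
    (h1 : δ.mulVec (fun _ => 1) = 0) : minDist δ = 4 := by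
  have : {w | ∃ x : Fin 4 → ZMod 2, δ.mulVec x = 0 ∧ x ≠ 0 ∧ hammingNorm x = w} = {4} := by
    ext w
    constructor
    · rintro ⟨x, hx, hx0, rfl⟩
      rw [h x hx hx0]
      decide
    · rintro rfl
      exact ⟨_, h1, one_ne, by decide⟩
  rw [minDist, this, csInf_singleton]

/-- If a set `S` of states contains `0`, is closed under the flips to states of energy at most
`1`, and does not contain `x`, then every path to `x` has maximal energy at least `2`. -/
lemma two_le_maxEnergy {m : ℕ} (δ : Matrix (Fin m) (Fin 4) (ZMod 2)) (S : (Fin 4 → ZMod 2) → Prop)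
    (h0 : S 0) (hS : ∀ y, S y → ∀ z, hammingDist y z = 1 → energy δ z ≤ 1 → S z)
    {x : Fin 4 → ZMod 2} (hx : ¬ S x) {F : ℕ} {p : ℕ → Fin 4 → ZMod 2} (hp : IsPath F p x) :
    2 ≤ maxEnergy δ F p := by
  by_contra hlt
  have hle : ∀ i ≤ F, energy δ (p i) ≤ 1 := by
    intro i hi
    have : energy δ (p i) ≤ maxEnergy δ F p :=
      Finset.le_sup (f := fun i => energy δ (p i)) (Finset.mem_range.2 (by omega))
    omega
  have key : ∀ i ≤ F, S (p i) := by
    intro i
    induction i with
    | zero => intro _; rw [hp.1]; exact h0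
    | succ k ih =>
      intro hk
      exact hS _ (ih (by omega)) _ (hp.2.2 k (by omega)) (hle _ hk)
  exact hx (hp.2.1 ▸ key F le_rfl)

lemma barrierOf_le {m n : Type} [Fintype m] [Fintype n] (δ : Matrix m n (ZMod 2))
    {x : n → ZMod 2} {F : ℕ} {p : ℕ → n → ZMod 2} (hp : IsPath F p x) {e : ℕ}
    (he : ∀ i < F + 1, energy δ (p i) ≤ e) : barrierOf δ x ≤ e := by
  have h1 : maxEnergy δ F p ∈ {e | ∃ (F : ℕ) (p : ℕ → n → ZMod 2), IsPath F p x ∧
      maxEnergy δ F p = e} := ⟨F, p, hp, rfl⟩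
  exact (Nat.sInf_le h1).trans (Finset.sup_le fun i hi => he i (Finset.mem_range.1 hi))

lemma barrier_eq {m : ℕ} (δ : Matrix (Fin m) (Fin 4) (ZMod 2))
    (h : ∀ x : Fin 4 → ZMod 2, δ.mulVec x = 0 → x ≠ 0 → x = fun _ => 1)
    (h1 : δ.mulVec (fun _ => 1) = 0) (S : (Fin 4 → ZMod 2) → Prop)
    (h0 : S 0) (hS : ∀ y, S y → ∀ z, hammingDist y z = 1 → energy δ z ≤ 1 → S z)
    (hx : ¬ S (fun _ => 1)) {p : ℕ → Fin 4 → ZMod 2} (hp : IsPath 4 p (fun _ => 1))
    (he : ∀ i < 5, energy δ (p i) ≤ 2) : barrier δ = 2 := by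
  have hb : barrierOf δ (fun _ => 1) = 2 := by
    refine le_antisymm (barrierOf_le δ hp he) ?_
    refine le_csInf ⟨_, 4, p, hp, rfl⟩ ?_
    rintro e ⟨F, q, hq, rfl⟩
    exact two_le_maxEnergy δ S h0 hS hx hq
  have : {e | ∃ x : Fin 4 → ZMod 2, δ.mulVec x = 0 ∧ x ≠ 0 ∧ barrierOf δ x = e} = {2} := by
    ext w
    constructor
    · rintro ⟨x, hx, hx0, rfl⟩
      rw [h x hx hx0, hb]
      rfl
    · rintro rfl
      exact ⟨_, h1, one_ne, hb⟩
  rw [barrier, this, csInf_singleton]

def posA : Fin 4 → ℕ := ![0, 1, 2, 3]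
def posB : Fin 4 → ℕ := ![0, 3, 1, 2]
def posC : Fin 4 × Fin 4 → ℕ := fun k =>
  (![![6, 9, 7, 8], ![0, 11, 1, 10], ![2, 13, 3, 12], ![4, 14, 5, 15]] k.1) k.2

lemma pathA : IsPath 4 (flipPath posA) (fun _ => 1) := by unfold IsPath; decide
lemma pathB : IsPath 4 (flipPath posB) (fun _ => 1) := by unfold IsPath; decide
lemma pathC : IsPath 16 (flipPath posC) (fun _ => 1) := by unfold IsPath; decide +kernel

lemma enA : ∀ i < 5, energy A (flipPath posA i) ≤ 2 := by unfold energy; decide
lemma enB : ∀ i < 5, energy B (flipPath posB i) ≤ 2 := by unfold energy; decide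

lemma enC : ∀ i < 17, energy (tensorCheck A B) (flipPath posC i) ≤ 6 := by
  unfold energy; decide +kernel

/-- The states reachable from `0` through states of energy at most `1`, for `A`. -/
def SA (y : Fin 4 → ZMod 2) : Prop := y = 0 ∨ y = ![1, 0, 0, 0] ∨ y = ![1, 1, 0, 0] ∨
  y = ![1, 0, 0, 1]

instance : DecidablePred SA := fun y => by unfold SA; infer_instance

lemma clA : ∀ y, SA y → ∀ z, hammingDist y z = 1 → energy A z ≤ 1 → SA z := by
  unfold energy; decide +kernel
lemma clB : ∀ y, y = 0 → ∀ z, hammingDist y z = 1 → energy B z ≤ 1 → z = 0 := by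
  unfold energy; decide +kernel

lemma barrier_A : barrier A = 2 :=
  barrier_eq A ker_A one_A SA (Or.inl rfl) clA (by decide) pathA enA

lemma barrier_B : barrier B = 2 :=
  barrier_eq B ker_B one_B (fun y => y = 0) rfl clB (by decide) pathB enB

lemma one_C : (tensorCheck A B).mulVec (fun _ => 1) = 0 := by decide +kernel

lemma barrier_C : barrier (tensorCheck A B) ≤ 6 := by
  have h1 : barrierOf (tensorCheck A B) (fun _ => 1) ∈ {e | ∃ x : Fin 4 × Fin 4 → ZMod 2,
      (tensorCheck A B).mulVec x = 0 ∧ x ≠ 0 ∧ barrierOf (tensorCheck A B) x = e} :=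
    ⟨fun _ => 1, one_C, fun h => absurd (congrFun h (0, 0)) (by decide), rfl⟩
  exact (Nat.sInf_le h1).trans (barrierOf_le _ pathC enC)

/-- **The conjectured lower bound for the energy barrier of a tensor product code fails**: there
are parity-check matrices `δ_a`, `δ_b` with nonzero codewords such that the tensor product code
has energy barrier smaller than `min (d_a * E_b) (E_a * d_b)`. -/
theorem result : ∃ (ma na mb nb : ℕ) (δa : Matrix (Fin ma) (Fin na) (ZMod 2))
    (δb : Matrix (Fin mb) (Fin nb) (ZMod 2)),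
    (∃ x, δa.mulVec x = 0 ∧ x ≠ 0) ∧ (∃ x, δb.mulVec x = 0 ∧ x ≠ 0) ∧
      barrier (tensorCheck δa δb) < min (minDist δa * barrier δb) (barrier δa * minDist δb) := by
  refine ⟨3, 4, 4, 4, A, B, ⟨_, one_A, one_ne⟩, ⟨_, one_B, one_ne⟩, ?_⟩
  rw [minDist_eq A ker_A one_A, minDist_eq B ker_B one_B, barrier_A, barrier_B]
  exact barrier_C.trans_lt (by norm_num)

end Pool.Agent.Results.MP_998457_co.TensorBarrier
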